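import Mathlib
import Pool.Agent.Lib.MP_4abfef_an.Defs
import Pool.Agent.Lib.MP_4abfef_an.Main

open MeasureTheory Filter Topology Set
open Pool.Agent.Lib.MP_4abfef_an

namespace Pool.Agent.Results.MP_4abfef_an.TypicalExtensionMix

/-- Let `(X, μ)` and `(Y, ν)` be standard nonatomic probability spaces, let `k ≥ 1`, and let `T`
be an automorphism of `(X, μ)` which is mixing of multiplicity `k`. Then a typical extension `S` of
`T` to `(X × Y, μ ⊗ ν)` (all `S` in a comeager subset of `ℰ(T)`, for the Halmos topology) is mixing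
of multiplicity `k`. -/
theorem result {X Y : Type*} [MeasurableSpace X] [StandardBorelSpace X] [MeasurableSpace Y]
    [StandardBorelSpace Y] (μ : Measure X) [IsProbabilityMeasure μ] [NullSingletonClass μ]
    (ν : Measure Y) [IsProbabilityMeasure ν] [NullSingletonClass ν] {k : ℕ} (hk : 1 ≤ k)
    (T : Aut μ) (hT : Mix k T) :
    ∀ᶠ S : Ext T ν in residual (Ext T ν), Mix k S.1 :=
  main μ ν hk T hT

end Pool.Agent.Results.MP_4abfef_an.TypicalExtensionMix
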